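import Pool.Agent.K3h92.Hz.Stm

/-!
# The potential function for Hurwitz moves (brick POT of helper92)
-/

set_option autoImplicit false

namespace Pool.Agent.K3h76.Hz

open Pool.Agent.K3h92.Hz

/-! ### Inversions of a list -/

/-- the number of inversions -/
def inv : List ℕ → ℕ
  | [] => 0
  | x :: l => l.countP (fun y => decide (y < x)) + inv l

lemma inv_append (a : List ℕ) {c d : List ℕ} (h : c.Perm d) {m : ℕ} (hcd : inv d ≤ inv c + m) :
    inv (a ++ d) ≤ inv (a ++ c) + m := by
  induction a with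
  | nil => simpa using hcd
  | cons x a ih =>
    have h1 : (a ++ d).countP (fun y => decide (y < x)) = (a ++ c).countP (fun y => decide (y < x)) :=
      ((h.append_left a).countP_eq _).symm
    simp only [List.cons_append, inv]
    omega

lemma inv_swap (a b : List ℕ) (x y : ℕ) : inv (a ++ y :: x :: b) ≤ inv (a ++ x :: y :: b) + 1 := by
  refine inv_append a (List.Perm.swap _ _ _) ?_
  simp only [inv, List.countP_cons, decide_eq_true_eq]
  split_ifs <;> omega

lemma inv_incr {l : List ℕ} (h : l.Pairwise (· < ·)) : inv l = 0 := by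
  induction l with
  | nil => rfl
  | cons x l ih =>
    rw [List.pairwise_cons] at h
    have h1 : l.countP (fun y => decide (y < x)) = 0 := by
      rw [List.countP_eq_zero]
      intro y hy
      have := h.1 y hy
      simp only [decide_eq_true_eq]
      omega
    rw [inv, h1, ih h.2]

lemma inv_decr {l : List ℕ} (h : l.Pairwise (· > ·)) : inv l = l.length.choose 2 := by
  induction l with
  | nil => rfl
  | cons x l ih =>
    rw [List.pairwise_cons] at h
    have h1 : l.countP (fun y => decide (y < x)) = l.length := by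
      rw [List.countP_eq_length]
      intro y hy
      have := h.1 y hy
      simp only [decide_eq_true_eq]
      omega
    rw [inv, h1, ih h.2, List.length_cons, Nat.choose_succ_succ' l.length 1, Nat.choose_one_right]

/-! ### Spans -/

variable {G : Type} [Group G] {V : Type} [AddCommGroup V] [Module ℚ V] (R : RS G V)

lemma sp_nil : R.sp [] = ⊥ := by
  simp [RS.sp]

lemma sp_cons (t : G) (l : List G) : R.sp (t :: l) = Submodule.span ℚ {R.α t} ⊔ R.sp l := by
  rw [RS.sp, RS.sp, ← Submodule.span_union]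
  congr 1
  ext v
  constructor
  · rintro ⟨s, hs, rfl⟩
    rcases List.mem_cons.1 hs with rfl | hs
    · exact Or.inl rfl
    · exact Or.inr ⟨s, hs, rfl⟩
  · rintro (h | ⟨s, hs, rfl⟩)
    · exact ⟨t, List.mem_cons_self, h⟩
    · exact ⟨s, List.mem_cons_of_mem _ hs, rfl⟩

lemma sp_append (a b : List G) : R.sp (a ++ b) = R.sp a ⊔ R.sp b := by
  induction a with
  | nil => rw [List.nil_append, sp_nil, bot_sup_eq]
  | cons x a ih => rw [List.cons_append, sp_cons, sp_cons, ih, sup_assoc]

lemma mem_sp {l : List G} {t : G} (h : t ∈ l) : R.α t ∈ R.sp l :=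
  Submodule.subset_span ⟨t, h, rfl⟩

/-- the two words of a Hurwitz move span the same space -/
lemma span_move {s t : G} (hs : s ∈ R.T) (ht : t ∈ R.T) :
    Submodule.span ℚ {R.α (s * t * s)} ⊔ Submodule.span ℚ {R.α s} =
      Submodule.span ℚ {R.α s} ⊔ Submodule.span ℚ {R.α t} := by
  obtain ⟨k, k', hk, h⟩ := R.root s hs t ht
  apply le_antisymm
  · refine sup_le ?_ le_sup_left
    rw [Submodule.span_singleton_le_iff_mem, h]
    refine add_mem (Submodule.smul_mem _ _ ?_) (Submodule.smul_mem _ _ ?_)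
    · exact Submodule.mem_sup_right (Submodule.mem_span_singleton_self _)
    · exact Submodule.mem_sup_left (Submodule.mem_span_singleton_self _)
  · refine sup_le le_sup_right ?_
    rw [Submodule.span_singleton_le_iff_mem]
    have h1 : R.α t = k⁻¹ • (R.α (s * t * s) - k' • R.α s) := by
      rw [h, add_sub_cancel_right, smul_smul, inv_mul_cancel₀ hk, one_smul]
    rw [h1]
    refine Submodule.smul_mem _ _ (sub_mem ?_ (Submodule.smul_mem _ _ ?_))
    · exact Submodule.mem_sup_left (Submodule.mem_span_singleton_self _)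
    · exact Submodule.mem_sup_right (Submodule.mem_span_singleton_self _)

/-- the possible moves -/
lemma step_cases {l l' : List G} (h : Step l l') (hl : ∀ t ∈ l, t ∈ R.T) :
    ∃ (a b : List G) (s t s' t' : G), l = a ++ s :: t :: b ∧ l' = a ++ s' :: t' :: b ∧
      s ∈ R.T ∧ t ∈ R.T ∧ s' ∈ R.T ∧ t' ∈ R.T ∧
      Submodule.span ℚ {R.α s'} ⊔ Submodule.span ℚ {R.α t'} =
        Submodule.span ℚ {R.α s} ⊔ Submodule.span ℚ {R.α t} ∧
      ∀ dm : G → Prop, (∀ s ∈ R.T, ∀ t ∈ R.T, (dm (s * t * s) ↔ dm t)) →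
        (dm s' ↔ dm t) ∧ (dm t' ↔ dm s) := by
  obtain ⟨a, b, s, t, rfl, h⟩ := h
  have hs : s ∈ R.T := hl s (by simp)
  have ht : t ∈ R.T := hl t (by simp)
  rcases h with rfl | rfl
  · refine ⟨a, b, s, t, s * t * s, s, rfl, rfl, hs, ht, R.conj s hs t ht, hs, span_move R hs ht,
      fun dm hdm => ⟨hdm s hs t ht, Iff.rfl⟩⟩
  · refine ⟨a, b, s, t, t, t * s * t, rfl, rfl, hs, ht, ht, R.conj t ht s hs, ?_,
      fun dm hdm => ⟨Iff.rfl, hdm t ht s hs⟩⟩
    rw [sup_comm, span_move R ht hs, sup_comm]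

lemma step_span {l l' : List G} (h : Step l l') (hl : ∀ t ∈ l, t ∈ R.T) :
    (∀ t ∈ l', t ∈ R.T) ∧ R.sp l' = R.sp l ∧ l'.length = l.length := by
  obtain ⟨a, b, s, t, s', t', rfl, rfl, hs, ht, hs', ht', hsp, -⟩ := step_cases R h hl
  refine ⟨?_, ?_, ?_⟩
  · intro x hx
    simp only [List.mem_append, List.mem_cons] at hx
    rcases hx with hx | rfl | rfl | hx
    · exact hl x (by simp [hx])
    · exact hs'
    · exact ht'
    · exact hl x (by simp [hx])
  · rw [sp_append, sp_append, sp_cons, sp_cons, sp_cons, sp_cons,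
      ← sup_assoc (Submodule.span ℚ {R.α s'}), ← sup_assoc (Submodule.span ℚ {R.α s}), hsp]
  · simp

/-! ### Labels -/

variable (Fl : ℕ → Submodule ℚ V)

open Classical in
/-- the label of a letter over `P` with respect to the flag `Fl` -/
noncomputable def lab (P : Submodule ℚ V) (t : G) : ℕ := sInf {j | R.α t ∈ P ⊔ Fl j}

open Classical in
/-- the list of labels and flags -/
noncomputable def LP (dm : G → Prop) : Submodule ℚ V → List G → List (ℕ × Bool)
  | _, [] => []
  | P, t :: l => (lab R Fl P t, decide (dm t)) :: LP dm (P ⊔ Submodule.span ℚ {R.α t}) l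

lemma lab_gt {U : Submodule ℚ V} {n : ℕ} (hFl : Monotone Fl) (hU : Fl n = U) {P : Submodule ℚ V}
    {t : G} (ht : R.α t ∈ U) (j : ℕ) : j < lab R Fl P t ↔ R.α t ∉ P ⊔ Fl j := by
  constructor
  · intro h
    exact Nat.notMem_of_lt_sInf h
  · intro h
    by_contra hj
    have hne : {j | R.α t ∈ P ⊔ Fl j}.Nonempty := ⟨n, by
      show R.α t ∈ P ⊔ Fl n
      rw [hU]
      exact Submodule.mem_sup_right ht⟩
    have h1 : R.α t ∈ P ⊔ Fl (lab R Fl P t) := Nat.sInf_mem hne
    exact h (sup_le_sup_left (hFl (not_lt.1 hj)) P h1)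

open Classical in
lemma finrank_add [FiniteDimensional ℚ V] (W : Submodule ℚ V) (x : V) :
    Module.finrank ℚ (W ⊔ Submodule.span ℚ {x} : Submodule ℚ V) =
      Module.finrank ℚ W + if x ∉ W then 1 else 0 := by
  by_cases h : x ∈ W
  · rw [sup_eq_left.2 ((Submodule.span_singleton_le_iff_mem _ _).2 h), if_neg (not_not.2 h),
      add_zero]
  · have h0 : x ≠ 0 := fun h0 => h (h0 ▸ W.zero_mem)
    have h1 := Submodule.finrank_sup_add_finrank_inf_eq W (Submodule.span ℚ {x})
    have h2 : W ⊓ Submodule.span ℚ {x} = ⊥ := by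
      rw [← disjoint_iff, Submodule.disjoint_span_singleton' h0]
      exact h
    rw [h2, finrank_bot, finrank_span_singleton h0, add_zero] at h1
    rw [if_pos h]
    exact h1

lemma labels_sum [FiniteDimensional ℚ V] {U : Submodule ℚ V} {n : ℕ} (hFl : Monotone Fl)
    (hU : Fl n = U) (P : Submodule ℚ V) {s t : G} (hs : R.α s ∈ U) (ht : R.α t ∈ U) (j : ℕ) :
    (if j < lab R Fl P s then 1 else 0) +
      (if j < lab R Fl (P ⊔ Submodule.span ℚ {R.α s}) t then 1 else 0) +
      Module.finrank ℚ (P ⊔ Fl j : Submodule ℚ V) =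
    Module.finrank ℚ (P ⊔ (Submodule.span ℚ {R.α s} ⊔ Submodule.span ℚ {R.α t}) ⊔ Fl j :
      Submodule ℚ V) := by
  classical
  have e1 : P ⊔ (Submodule.span ℚ {R.α s} ⊔ Submodule.span ℚ {R.α t}) ⊔ Fl j =
      P ⊔ Fl j ⊔ Submodule.span ℚ {R.α s} ⊔ Submodule.span ℚ {R.α t} := by
    rw [sup_right_comm, ← sup_assoc]
  have e2 : P ⊔ Submodule.span ℚ {R.α s} ⊔ Fl j = P ⊔ Fl j ⊔ Submodule.span ℚ {R.α s} :=
    sup_right_comm _ _ _
  have h1 : (if j < lab R Fl P s then 1 else 0) = if R.α s ∉ P ⊔ Fl j then 1 else 0 :=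
    if_congr (lab_gt R Fl hFl hU hs j) rfl rfl
  have h2 : (if j < lab R Fl (P ⊔ Submodule.span ℚ {R.α s}) t then 1 else 0) =
      if R.α t ∉ P ⊔ Fl j ⊔ Submodule.span ℚ {R.α s} then 1 else 0 := by
    rw [← e2]
    exact if_congr (lab_gt R Fl hFl hU ht j) rfl rfl
  rw [e1, finrank_add, finrank_add, h1, h2]
  omega

lemma pair_eq {x y x' y' : ℕ} (h : ∀ j : ℕ, (if j < x then 1 else 0) + (if j < y then 1 else 0) =
    (if j < x' then 1 else 0) + (if j < y' then 1 else 0)) :
    (x' = x ∧ y' = y) ∨ (x' = y ∧ y' = x) := by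
  have h1 := h x
  have h2 := h y
  have h3 := h x'
  have h4 := h y'
  simp only [lt_irrefl, if_false] at h1 h2 h3 h4
  split_ifs at h1 h2 h3 h4 <;> omega

lemma labels_pair [FiniteDimensional ℚ V] {U : Submodule ℚ V} {n : ℕ} (hFl : Monotone Fl)
    (hU : Fl n = U) (P : Submodule ℚ V) {s t s' t' : G} (hs : R.α s ∈ U) (ht : R.α t ∈ U)
    (hs' : R.α s' ∈ U) (ht' : R.α t' ∈ U)
    (h : Submodule.span ℚ {R.α s'} ⊔ Submodule.span ℚ {R.α t'} =
        Submodule.span ℚ {R.α s} ⊔ Submodule.span ℚ {R.α t}) :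
    (lab R Fl P s' = lab R Fl P s ∧ lab R Fl (P ⊔ Submodule.span ℚ {R.α s'}) t' =
      lab R Fl (P ⊔ Submodule.span ℚ {R.α s}) t) ∨
    (lab R Fl P s' = lab R Fl (P ⊔ Submodule.span ℚ {R.α s}) t ∧
      lab R Fl (P ⊔ Submodule.span ℚ {R.α s'}) t' = lab R Fl P s) := by
  refine pair_eq fun j => ?_
  have h1 := labels_sum R Fl hFl hU P hs ht j
  have h2 := labels_sum R Fl hFl hU P hs' ht' j
  rw [h] at h2
  omega

/-! ### The potential -/

/-- the potential -/
def pot (p : ℕ) (m : List (ℕ × Bool)) : ℕ :=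
  inv (m.map Prod.fst) + if (p + 1, true) ∈ m then 0 else 1

lemma pot_step (p : ℕ) (a b : List (ℕ × Bool)) {x y x' y' : ℕ} (f g : Bool)
    (h : (x' = x ∧ y' = y) ∨ (x' = y ∧ y' = x)) :
    pot p (a ++ (x', g) :: (y', f) :: b) ≤ pot p (a ++ (x, f) :: (y, g) :: b) + 1 := by
  rcases h with ⟨rfl, rfl⟩ | ⟨rfl, rfl⟩
  · unfold pot
    have e : (a ++ (x', g) :: (y', f) :: b).map Prod.fst =
        (a ++ (x', f) :: (y', g) :: b).map Prod.fst := by simp
    rw [e]
    split_ifs <;> omega
  · unfold pot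
    have e : (a ++ (x', g) :: (y', f) :: b).Perm (a ++ (y', f) :: (x', g) :: b) :=
      (List.Perm.swap _ _ _).append_left a
    have e2 : (p + 1, true) ∈ a ++ (x', g) :: (y', f) :: b ↔
        (p + 1, true) ∈ a ++ (y', f) :: (x', g) :: b := e.mem_iff
    have e3 := inv_swap (a.map Prod.fst) (b.map Prod.fst) y' x'
    simp only [List.map_append, List.map_cons]
    by_cases h : (p + 1, true) ∈ a ++ (x', g) :: (y', f) :: b
    · rw [if_pos h, if_pos (e2.1 h)]
      omega
    · rw [if_neg h, if_neg (fun h' => h (e2.2 h'))]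
      omega

lemma LP_append (dm : G → Prop) (P : Submodule ℚ V) (a c : List G) :
    LP R Fl dm P (a ++ c) = LP R Fl dm P a ++ LP R Fl dm (P ⊔ R.sp a) c := by
  induction a generalizing P with
  | nil => rw [List.nil_append, LP, List.nil_append, sp_nil, sup_bot_eq]
  | cons x a ih =>
    rw [List.cons_append, LP, LP, ih, List.cons_append, sp_cons, sup_assoc]

open Classical in
lemma pot_move [FiniteDimensional ℚ V] {U : Submodule ℚ V} {n : ℕ} (hFl : Monotone Fl)
    (hU : Fl n = U) {dm : G → Prop} (hdm : ∀ s ∈ R.T, ∀ t ∈ R.T, (dm (s * t * s) ↔ dm t)) (p : ℕ)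
    {l l' : List G} (h : Step l l') (hl : ∀ t ∈ l, t ∈ R.T) (hlU : R.sp l ≤ U) :
    pot p (LP R Fl dm ⊥ l') ≤ pot p (LP R Fl dm ⊥ l) + 1 := by
  have hsp := (step_span R h hl).2.1
  obtain ⟨a, b, s, t, s', t', rfl, rfl, hs, ht, hs', ht', hsp2, hd⟩ := step_cases R h hl
  obtain ⟨hd1, hd2⟩ := hd dm hdm
  have hU1 : R.α s ∈ U := hlU (mem_sp R (by simp))
  have hU2 : R.α t ∈ U := hlU (mem_sp R (by simp))
  have hU3 : R.α s' ∈ U := (hsp.le.trans hlU) (mem_sp R (by simp))
  have hU4 : R.α t' ∈ U := (hsp.le.trans hlU) (mem_sp R (by simp))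
  have h2 := labels_pair R Fl hFl hU (⊥ ⊔ R.sp a) hU1 hU2 hU3 hU4 hsp2
  rw [LP_append, LP_append]
  simp only [LP]
  rw [sup_assoc (⊥ ⊔ R.sp a) (Submodule.span ℚ {R.α s'}), hsp2, ← sup_assoc,
    show decide (dm s') = decide (dm t) from decide_eq_decide.2 hd1,
    show decide (dm t') = decide (dm s) from decide_eq_decide.2 hd2]
  exact pot_step p _ _ _ _ h2

lemma pot_reach [FiniteDimensional ℚ V] {U : Submodule ℚ V} {n : ℕ} (hFl : Monotone Fl)
    (hU : Fl n = U) {dm : G → Prop} (hdm : ∀ s ∈ R.T, ∀ t ∈ R.T, (dm (s * t * s) ↔ dm t)) (p : ℕ)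
    {k : ℕ} {l l' : List G} (h : Reach k l l') (hl : ∀ t ∈ l, t ∈ R.T) (hlU : R.sp l ≤ U) :
    R.sp l' = R.sp l ∧ pot p (LP R Fl dm ⊥ l') ≤ pot p (LP R Fl dm ⊥ l) + k := by
  induction h with
  | refl l => exact ⟨rfl, le_rfl⟩
  | step hs hr ih =>
    obtain ⟨h1, h2, -⟩ := step_span R hs hl
    obtain ⟨h3, h4⟩ := ih h1 (h2.le.trans hlU)
    have h5 := pot_move R Fl hFl hU hdm p hs hl hlU
    exact ⟨h3.trans h2, by omega⟩

/-! ### The labels at the ends -/

open Classical in
lemma LP_getElem (dm : G → Prop) (P : Submodule ℚ V) (l : List G) (i : ℕ) :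
    (LP R Fl dm P l)[i]? =
      l[i]?.map fun t => (lab R Fl (P ⊔ R.sp (l.take i)) t, decide (dm t)) := by
  induction l generalizing P i with
  | nil => simp [LP]
  | cons x l ih =>
    cases i with
    | zero => simp [LP, sp_nil]
    | succ i =>
      rw [LP, List.getElem?_cons_succ, ih, List.getElem?_cons_succ, List.take_succ_cons, sp_cons,
        sup_assoc]

lemma finrank_sp_le [FiniteDimensional ℚ V] (l : List G) :
    Module.finrank ℚ (R.sp l) ≤ l.length := by
  classical
  induction l with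
  | nil => rw [sp_nil, finrank_bot]; simp
  | cons x l ih =>
    rw [sp_cons, sup_comm, finrank_add, List.length_cons]
    split_ifs <;> omega

lemma finrank_take [FiniteDimensional ℚ V] {l : List G} (h : Module.finrank ℚ (R.sp l) = l.length)
    {i : ℕ} (hi : i ≤ l.length) : Module.finrank ℚ (R.sp (l.take i)) = i := by
  have h1 := finrank_sp_le R (l.take i)
  have h2 := finrank_sp_le R (l.drop i)
  have h3 : R.sp l = R.sp (l.take i) ⊔ R.sp (l.drop i) := by
    rw [← sp_append, List.take_append_drop]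
  have h4 := Submodule.finrank_add_le_finrank_add_finrank (R.sp (l.take i)) (R.sp (l.drop i))
  rw [← h3, h] at h4
  rw [List.length_take] at h1
  rw [List.length_drop] at h2
  omega

lemma sp_take_succ {l : List G} {i : ℕ} {t : G} (h : l[i]? = some t) :
    R.sp (l.take (i + 1)) = R.sp (l.take i) ⊔ Submodule.span ℚ {R.α t} := by
  rw [List.take_add_one, h, sp_append]
  congr 1
  rw [Option.toList_some, sp_cons, sp_nil, sup_bot_eq]

lemma notMem_take [FiniteDimensional ℚ V] {l : List G}
    (h : Module.finrank ℚ (R.sp l) = l.length) {i : ℕ} {t : G} (ht : l[i]? = some t) :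
    R.α t ∉ R.sp (l.take i) := by
  intro hm
  obtain ⟨hi, -⟩ := List.getElem?_eq_some_iff.1 ht
  have h1 := finrank_take R h (show i ≤ l.length by omega)
  have h2 := finrank_take R h (show i + 1 ≤ l.length by omega)
  rw [sp_take_succ R ht, sup_eq_left.2 ((Submodule.span_singleton_le_iff_mem _ _).2 hm)] at h2
  omega

lemma sp_take_mono (l : List G) : Monotone fun j => R.sp (l.take j) := by
  intro i j hij
  refine Submodule.span_mono ?_
  rintro v ⟨t, ht, rfl⟩
  exact ⟨t, (List.take_subset_take_left l hij) ht, rfl⟩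

theorem pot_thm : StmPot := by
  classical
  intro G _ V _ _ _ R dm hdm n v w hv hw hvT hvd hopp p q hp hq hvp hwq k hk
  set Fl : ℕ → Submodule ℚ V := fun j => R.sp (v.take j) with hFl
  have hmono : Monotone Fl := sp_take_mono R v
  have hFn : Fl n = R.sp v := by
    rw [hFl]
    show R.sp (v.take n) = R.sp v
    rw [List.take_of_length_le (by omega)]
  obtain ⟨hsp, hpot⟩ := pot_reach R Fl hmono hFn hdm p hk hvT le_rfl
  have hvd' : Module.finrank ℚ (R.sp v) = v.length := by rw [hvd, hv]
  have hwd' : Module.finrank ℚ (R.sp w) = w.length := by rw [hsp, hvd, hw]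
  -- labels of `v`
  have hlv : ∀ i t, v[i]? = some t → lab R Fl (R.sp (v.take i)) t = i + 1 := by
    intro i t ht
    have htU : R.α t ∈ R.sp v := mem_sp R (List.mem_of_getElem? ht)
    have h1 : i < lab R Fl (R.sp (v.take i)) t := by
      rw [lab_gt R Fl hmono hFn htU]
      show R.α t ∉ R.sp (v.take i) ⊔ R.sp (v.take i)
      rw [sup_idem]
      exact notMem_take R hvd' ht
    have h2 : ¬ i + 1 < lab R Fl (R.sp (v.take i)) t := by
      rw [lab_gt R Fl hmono hFn htU, not_not]
      refine Submodule.mem_sup_right ?_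
      show R.α t ∈ R.sp (v.take (i + 1))
      rw [sp_take_succ R ht]
      exact Submodule.mem_sup_right (Submodule.mem_span_singleton_self _)
    omega
  -- labels of `w`
  have hlw : ∀ i t, w[i]? = some t → lab R Fl (R.sp (w.take i)) t = n - i := by
    intro i t ht
    obtain ⟨hi, -⟩ := List.getElem?_eq_some_iff.1 ht
    have htU : R.α t ∈ R.sp v := hsp ▸ mem_sp R (List.mem_of_getElem? ht)
    have h1 : n - i - 1 < lab R Fl (R.sp (w.take i)) t := by
      rw [lab_gt R Fl hmono hFn htU]
      intro hm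
      obtain ⟨f, hf, g, hg, hfg⟩ := Submodule.mem_sup.1 hm
      have hgm : g ∈ R.sp (w.take (i + 1)) ⊓ R.sp (v.take (n - (i + 1))) := by
        refine ⟨?_, ?_⟩
        · have : g = R.α t - f := by rw [← hfg, add_sub_cancel_left]
          rw [this, sp_take_succ R ht]
          exact sub_mem (Submodule.mem_sup_right (Submodule.mem_span_singleton_self _))
            (Submodule.mem_sup_left hf)
        · have : n - (i + 1) = n - i - 1 := by omega
          rw [this]
          exact hg
      rw [hopp (i + 1) (by omega), Submodule.mem_bot] at hgm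
      rw [hgm, add_zero] at hfg
      exact notMem_take R hwd' ht (hfg ▸ hf)
    have h2 : ¬ n - i < lab R Fl (R.sp (w.take i)) t := by
      rw [lab_gt R Fl hmono hFn htU, not_not]
      have h3 := Submodule.finrank_sup_add_finrank_inf_eq (R.sp (w.take i)) (R.sp (v.take (n - i)))
      rw [hopp i (by omega), finrank_bot, finrank_take R hwd' (by omega),
        finrank_take R hvd' (by omega)] at h3
      have h4 : R.sp (w.take i) ⊔ R.sp (v.take (n - i)) = R.sp v := by
        refine Submodule.eq_of_le_of_finrank_eq (sup_le ?_ ?_) ?_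
        · rw [← hsp]
          have := sp_take_mono R w (show i ≤ w.length by omega)
          simpa using this
        · have := sp_take_mono R v (show n - i ≤ v.length by omega)
          simpa using this
        · omega
      show R.α t ∈ R.sp (w.take i) ⊔ R.sp (v.take (n - i))
      rw [h4]
      exact htU
    omega
  -- the lists of labels
  have hlist : ∀ (l : List G) (F : ℕ → ℕ), l.length = n →
      (∀ i t, l[i]? = some t → lab R Fl (R.sp (l.take i)) t = F i) →
      (LP R Fl dm ⊥ l).map Prod.fst = (List.range n).map F := by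
    intro l F hl hF
    refine List.ext_getElem? fun i => ?_
    rw [List.getElem?_map, LP_getElem, List.getElem?_map, Option.map_map]
    by_cases hi : i < n
    · have hi' : i < l.length := by omega
      have h1 : l[i]? = some l[i] := List.getElem?_eq_getElem hi'
      rw [h1, List.getElem?_range hi]
      simp only [Option.map_some, Function.comp, bot_sup_eq]
      rw [hF i _ h1]
    · rw [List.getElem?_eq_none (by omega), List.getElem?_eq_none (by simp; omega)]
      rfl
  have hv1 := hlist v (fun i => i + 1) hv hlv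
  have hw1 := hlist w (fun i => n - i) hw hlw
  have hincr : ((List.range n).map (fun i => i + 1)).Pairwise (· < ·) := by
    rw [List.pairwise_map]
    exact List.pairwise_lt_range.imp (fun h => by omega)
  have hdecr : ((List.range n).map (fun i => n - i)).Pairwise (· > ·) := by
    rw [List.pairwise_map]
    refine List.Pairwise.imp_of_mem ?_ List.pairwise_lt_range
    intro a b ha hb hab
    have := List.mem_range.1 hb
    omega
  have hpv : pot p (LP R Fl dm ⊥ v) = 0 := by
    unfold pot
    rw [hv1, inv_incr hincr, zero_add, if_pos]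
    rw [List.mem_iff_getElem?]
    obtain ⟨t, ht⟩ : ∃ t, v[p]? = some t := ⟨_, List.getElem?_eq_getElem (by omega)⟩
    refine ⟨p, ?_⟩
    rw [LP_getElem, ht, Option.map_some, bot_sup_eq, hlv p t ht,
      decide_eq_true ((hvp p t ht).2 rfl)]
  have hpw : pot p (LP R Fl dm ⊥ w) = n.choose 2 + if p + q + 1 = n then 0 else 1 := by
    unfold pot
    rw [hw1, inv_decr hdecr, List.length_map, List.length_range]
    congr 1
    refine if_congr ?_ rfl rfl
    rw [List.mem_iff_getElem?]
    constructor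
    · rintro ⟨i, hi⟩
      rw [LP_getElem, Option.map_eq_some_iff] at hi
      obtain ⟨t, ht, h⟩ := hi
      rw [Prod.mk.injEq, bot_sup_eq, hlw i t ht, decide_eq_true_eq] at h
      have := (hwq i t ht).1 h.2
      obtain ⟨hi, -⟩ := List.getElem?_eq_some_iff.1 ht
      omega
    · intro h
      obtain ⟨t, ht⟩ : ∃ t, w[q]? = some t := ⟨_, List.getElem?_eq_getElem (by omega)⟩
      refine ⟨q, ?_⟩
      rw [LP_getElem, ht, Option.map_some, bot_sup_eq, hlw q t ht,
        decide_eq_true ((hwq q t ht).2 rfl)]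
      have : n - q = p + 1 := by omega
      rw [this]
  rw [hpv, hpw] at hpot
  refine ⟨by split_ifs at hpot <;> omega, fun hne => ?_⟩
  rw [if_neg hne] at hpot
  omega

end Pool.Agent.K3h76.Hz
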